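import Mathlib

namespace Pool.Agent.Helper92.PO

/-! ### polyominoes -/

/-- cells of the square lattice -/
abbrev Cell : Type := ℤ × ℤ

/-- edge adjacency of cells -/
def Adj (a b : Cell) : Prop := |a.1 - b.1| + |a.2 - b.2| = 1

/-- edge connectedness of a finite set of cells -/
def Conn (P : Finset Cell) : Prop :=
  ∀ a ∈ P, ∀ b ∈ P, Relation.ReflTransGen (fun x y => y ∈ P ∧ Adj x y) a b

/-- `P` is an `n`-omino -/
def IsOmino (n : ℕ) (P : Finset Cell) : Prop := P.card = n ∧ P.Nonempty ∧ Conn P

/-- `Q` is a translate of `P` -/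
def Translate (P Q : Finset Cell) : Prop := ∃ v : Cell, Q = P.image (fun a => a + v)

/-- the number of fixed `n`-ominoes: the number of translation classes of `n`-ominoes -/
noncomputable def fixedOminoes (n : ℕ) : ℕ :=
  {C : Set (Finset Cell) | ∃ P, IsOmino n P ∧ C = {Q | Translate P Q}}.ncard

/-- anchored `n`-ominoes: the lexicographically smallest cell is the origin -/
def Anch (n : ℕ) : Set (Finset Cell) :=
  {P | P.card = n ∧ Conn P ∧ ((0, 0) : Cell) ∈ P ∧ ∀ a ∈ P, 0 < a.1 ∨ (a.1 = 0 ∧ 0 ≤ a.2)}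

/-! ### labels -/

/-- labels `(kind, depth)`; kind `0`: empty, `1`: root, `2,3,4,5`: the parent is the
left, lower, right, upper neighbour -/
abbrev Lab : Type := ℕ × ℕ

/-- all labels of depth at most `n` -/
def labs (n : ℕ) : List Lab :=
  (0, 0) :: (1, 0) :: (List.range n).flatMap fun d => [(2, d + 1), (3, d + 1), (4, d + 1), (5, d + 1)]

/-- depths of neighbouring cells differ by at most one -/
def sm (u v : Lab) : Bool :=
  decide (u.1 = 0) || (decide (v.1 = 0) || (decide (u.2 ≤ v.2 + 1) && decide (v.2 ≤ u.2 + 1)))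

/-- `u` may be the label of a parent of a cell with label `v` -/
def ispar (v u : Lab) : Bool := !(decide (u.1 = 0)) && decide (u.2 + 1 = v.2)

/-- constraint between a label `v` and the label `u` of its neighbour in direction `c` -/
def par (c : ℕ) (v u : Lab) : Bool :=
  if v.1 ≤ 1 then true else if v.1 = c then ispar v u else if c < v.1 then !(ispar v u) else true

/-- horizontal constraint (`b` is to the right of `a`) -/
def Hc (a b : Lab) : Bool := sm a b && (par 2 b a && par 4 a b)

/-- vertical constraint (`b` is above `a`) -/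
def Vc (a b : Lab) : Bool := sm a b && (par 3 b a && par 5 a b)

/-- `c` is a valid labelling of `P` -/
def Val (n : ℕ) (P : Finset Cell) (c : Cell → Lab) : Prop :=
  (∀ a, a ∈ P ↔ (c a).1 ≠ 0) ∧ (∀ a, c a ∈ labs n) ∧ (∀ a, (c a).1 = 1 ↔ a = ((0, 0) : Cell)) ∧
  (∀ a : Cell, Hc (c a) (c (a.1 + 1, a.2)) = true) ∧
  (∀ a : Cell, Vc (c a) (c (a.1, a.2 + 1)) = true)

/-! ### the scanning automaton -/

/-- width of the strips -/
def wd (n : ℕ) : ℕ := Nat.sqrt n + 1
/-- number of strips -/
def JJ (n : ℕ) : ℕ := n + 2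
/-- number of rows -/
def LL (n : ℕ) : ℕ := 2 * n + 2
/-- number of rows in all strips -/
def KK (n : ℕ) : ℕ := JJ n * LL n

/-- a cell `(j, y, u)`: strip, row, column in the strip -/
abbrev Cel : Type := ℕ × ℕ × ℕ
/-- a partial labelling of the last columns of the strips -/
abbrev Row : Type := List (ℕ × Lab)
/-- the queue of the last `wd n` labels, with the number of non-empty cells in that column class -/
abbrev Que : Type := List (Lab × ℕ)
/-- states: last label and queue -/
abbrev Sta : Type := Lab × Que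

/-- the cells in the order of the scan -/
def cells (n : ℕ) : List Cel :=
  (List.range (JJ n)).flatMap fun j => (List.range (LL n)).flatMap fun y =>
    (List.range (wd n)).map fun u => (j, y, u)

/-- look up in a row -/
def lk : Row → ℕ → Lab
  | [], _ => (0, 0)
  | p :: t, k => if p.1 = k then p.2 else lk t k

/-- head of the queue -/
def hd (q : Que) : Lab × ℕ := q.headD ((0, 0), 0)

/-- the cell `(x, y)` has to be empty -/
def mustEmpty (n σ x y : ℕ) : Bool :=
  decide (y = 0) || (decide (y = 2 * n + 1) || (decide (x < σ + 1) ||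
    ((decide (x = σ + 1) && decide (y < n + 1)) || decide (x + 1 = JJ n * wd n))))

/-- equality of booleans -/
def beq2 (a b : Bool) : Bool := (a && b) || (!a && !b)

/-- may the cell `z` get the label `v` in the state `st`? -/
def allowed (n σ : ℕ) (ξ : Row) (z : Cel) (st : Sta) (v : Lab) : Bool :=
  beq2 (decide (z.1 * wd n + z.2.2 = σ + 1) && decide (z.2.1 = n + 1)) (decide (v.1 = 1)) &&
  ((!(mustEmpty n σ (z.1 * wd n + z.2.2) z.2.1) || decide (v.1 = 0)) &&
  ((!(decide (z.2.2 + 1 = wd n)) || decide (v = lk ξ (z.1 * LL n + z.2.1))) &&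
  (Vc (hd st.2).1 v &&
  Hc (if z.2.2 = 0 then (if z.1 = 0 then (0, 0) else lk ξ ((z.1 - 1) * LL n + z.2.1)) else st.1) v)))

/-- one when the label is not empty -/
def one (v : Lab) : ℕ := if v.1 = 0 then 0 else 1

/-- the next state -/
def nxt (st : Sta) (v : Lab) : Sta := (v, st.2.tail ++ [(v, (hd st.2).2 + one v)])

/-- accepting states -/
def accept (n σ : ℕ) (st : Sta) : Bool :=
  decide ((st.2.map Prod.snd).sum = n) &&
    (decide ((st.2.map Prod.snd).getLastD 0 ≤ Nat.sqrt n) &&
      ((st.2.map Prod.snd).take σ).all (fun c => decide (Nat.sqrt n < c)))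

/-- number of accepted continuations -/
def W (n σ : ℕ) (ξ : Row) : List Cel → Sta → ℕ
  | [], st => if accept n σ st then 1 else 0
  | z :: zs, st =>
    ((labs n).map fun v => if allowed n σ ξ z st v then W n σ ξ zs (nxt st v) else 0).sum

/-- accepted runs -/
def okRun (n σ : ℕ) (ξ : Row) : List Cel → Sta → List Lab → Bool
  | [], st, [] => accept n σ st
  | z :: zs, st, v :: vs => allowed n σ ξ z st v && okRun n σ ξ zs (nxt st v) vs
  | _, _, _ => false

/-- all lists of length `k` over `l` -/
def allL {α : Type} (l : List α) : ℕ → List (List α)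
  | 0 => [[]]
  | k + 1 => (allL l k).flatMap fun t => l.map fun a => a :: t

/-- possible entries of the queue -/
def ents (n : ℕ) : List (Lab × ℕ) :=
  (labs n).flatMap fun v => (List.range (KK n + 1)).map fun c => (v, c)

/-- all states -/
def states (n : ℕ) : List Sta :=
  (labs n).flatMap fun v => (allL (ents n) (wd n)).map fun q => (v, q)

/-- look up in a table -/
def look : List (Sta × ℕ) → Sta → ℕ
  | [], _ => 0
  | p :: t, st => if p.1 = st then p.2 else look t st

/-- the table of the values of `W` -/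
def tab (n σ : ℕ) (ξ : Row) : List Cel → List (Sta × ℕ)
  | [] => (states n).map fun st => (st, if accept n σ st then 1 else 0)
  | z :: zs => (states n).map fun st =>
    (st, ((labs n).map fun v =>
      if allowed n σ ξ z st v then look (tab n σ ξ zs) (nxt st v) else 0).sum)

/-- one step in the construction of the rows -/
def rowStep (n : ℕ) (X : List Row) (k : ℕ) : List Row :=
  X ++ (X.filter fun ξ => decide (ξ.length < Nat.sqrt n)).flatMap fun ξ =>
    (labs n).tail.map fun v => (k, v) :: ξ

/-- all partial labellings with at most `sqrt n` non-empty cells -/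
def rows (n : ℕ) : List Row := (List.range (KK n)).foldl (rowStep n) [[]]

/-- the initial state -/
def st0 (n : ℕ) : Sta := ((0, 0), List.replicate (wd n) ((0, 0), 0))

/-- the algorithm -/
def alg (n : ℕ) : ℕ :=
  ((List.range (wd n)).map fun σ =>
    ((rows n).map fun ξ => look (tab n σ ξ (cells n)) (st0 n)).sum).sum

/-! ### semantics of the scan -/

/-- number of non-empty labels among the first `i` ones in the class `r` -/
def cntU (w : ℕ) (g : ℕ → Lab) (i r : ℕ) : ℕ :=
  ((List.range i).filter fun i' => decide (i' % w = r) && !decide ((g i').1 = 0)).length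

/-- the state after the first `i` labels -/
def stAt (w : ℕ) (g : ℕ → Lab) (i : ℕ) : Sta :=
  (if i = 0 then (0, 0) else g (i - 1),
    (List.range w).map fun t =>
      (if i + t < w then (0, 0) else g (i + t - w), cntU w g i ((i + t) % w)))

/-- number of non-empty cells in the column class `u` -/
def cnt (n : ℕ) (f : ℕ → ℕ → Lab) (u : ℕ) : ℕ :=
  ((Finset.range (KK n)).filter fun k => (f k u).1 ≠ 0).card

/-- local conditions for a labelling `f k u` (`k = j * LL n + y`) of the box -/
def Loc (n σ : ℕ) (f : ℕ → ℕ → Lab) : Prop :=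
  (∀ k < KK n, ∀ u < wd n,
    ((f k u).1 = 1 ↔ ((k / LL n) * wd n + u = σ + 1 ∧ k % LL n = n + 1)) ∧
    (mustEmpty n σ ((k / LL n) * wd n + u) (k % LL n) = true → (f k u).1 = 0)) ∧
  (∀ k, k + 1 < KK n → ∀ u < wd n, Vc (f k u) (f (k + 1) u) = true) ∧
  (∀ k < KK n, ∀ u, u + 1 < wd n → Hc (f k u) (f k (u + 1)) = true) ∧
  (∀ k, k + LL n < KK n → Hc (f k (wd n - 1)) (f (k + LL n) 0) = true)

/-- conditions on the numbers of non-empty cells -/
def Cnt (n σ : ℕ) (f : ℕ → ℕ → Lab) : Prop :=
  (∑ u ∈ Finset.range (wd n), cnt n f u = n) ∧ cnt n f (wd n - 1) ≤ Nat.sqrt n ∧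
  ∀ u < σ, Nat.sqrt n < cnt n f u

/-- all conditions -/
def Sem (n σ : ℕ) (f : ℕ → ℕ → Lab) : Prop := Loc n σ f ∧ Cnt n σ f

/-- the labelling of the box given by a list of labels -/
def fun2 (n : ℕ) (vs : List Lab) : ℕ → ℕ → Lab := fun k u => vs.getD (k * wd n + u) (0, 0)

/-- the class `wd n - 1` of the polyomino shifted by `σ + 1` is light -/
def light (n : ℕ) (P : Finset Cell) (σ : ℕ) : Prop :=
  (P.filter fun a => (a.1 + σ + 1) % (wd n : ℤ) = (wd n : ℤ) - 1).card ≤ Nat.sqrt n

/-- `σ` is the first light shift -/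
def firstLight (n : ℕ) (P : Finset Cell) (σ : ℕ) : Prop :=
  light n P σ ∧ ∀ τ < σ, ¬ light n P τ

/-- number of cells in the column class `u` after the shift by `σ + 1` -/
def cls (n : ℕ) (P : Finset Cell) (σ u : ℕ) : ℕ :=
  (P.filter fun a => (a.1 + σ + 1) % (wd n : ℤ) = (u : ℤ)).card

/-- extension of a labelling of the box to the plane -/
def ext (n σ : ℕ) (f : ℕ → ℕ → Lab) : Cell → Lab := fun a =>
  if 0 ≤ a.1 + σ + 1 ∧ a.1 + σ + 1 < (JJ n * wd n : ℕ) ∧ 0 ≤ a.2 + n + 1 ∧ a.2 + n + 1 < (LL n : ℕ)
  then f (((a.1 + σ + 1).toNat / wd n) * LL n + (a.2 + n + 1).toNat) ((a.1 + σ + 1).toNat % wd n)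
  else (0, 0)

/-- restriction of a labelling of the plane to the box -/
def res (n σ : ℕ) (c : Cell → Lab) : ℕ → ℕ → Lab := fun k u =>
  c ((((k / LL n) * wd n + u : ℕ) : ℤ) - σ - 1, ((k % LL n : ℕ) : ℤ) - n - 1)

/-! ### input of the algorithm -/

/-- length of the padding -/
def bd (n : ℕ) : ℕ := (n + 2) ^ (10 * (Nat.sqrt n + 1))

end Pool.Agent.Helper92.PO
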