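import Mathlib
import Pool.Agent.Helper92.PO.Defs
import Pool.Agent.Helper52.Poly.Lists2
import Pool.Agent.Helper52.Poly.Serial
import Pool.Agent.Helper52.Poly.Arith
import Pool.Agent.Helper52.Poly.Link

namespace Pool.Agent.Helper92.PO

open Function Pool.Agent.Helper52.Poly

/-! ### A. polyominoes and labellings -/

def ST_ANC : Prop := ∀ n, fixedOminoes n = (Anch n).ncard

def ST_BOX : Prop := ∀ n P, P ∈ Anch n → ∀ a ∈ P,
  0 ≤ a.1 ∧ a.1 < (n : ℤ) ∧ -(n : ℤ) < a.2 ∧ a.2 < (n : ℤ)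

def ST_DIS : Prop := ∀ n P, P ∈ Anch n → ∃ D : Cell → ℕ, D (0, 0) = 0 ∧
  (∀ a ∈ P, a ≠ (0, 0) → ∃ b ∈ P, Adj a b ∧ D b + 1 = D a) ∧
  (∀ a ∈ P, ∀ b ∈ P, Adj a b → D a ≤ D b + 1) ∧ ∀ a ∈ P, D a < n

def ST_LBE : Prop := ∀ n P, P ∈ Anch n → ∃ c, Val n P c

def ST_LBU : Prop := ∀ n P c c', Val n P c → Val n P c' → c = c'

def ST_LBC : Prop := ∀ n P c, Val n P c → Conn P

/-! ### B. the scan -/

def ST_WCN : Prop := ∀ n σ ξ zs st, W n σ ξ zs st =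
  {vs : List Lab | (∀ v ∈ vs, v ∈ labs n) ∧ okRun n σ ξ zs st vs = true}.ncard

def ST_STA : Prop := ∀ (w : ℕ) (g : ℕ → Lab), 0 < w →
  stAt w g 0 = ((0, 0), List.replicate w ((0, 0), 0)) ∧
  ∀ i, nxt (stAt w g i) (g i) = stAt w g (i + 1) ∧
    hd (stAt w g i).2 = (if i < w then (0, 0) else g (i - w), cntU w g i (i % w))

def ST_CEL : Prop := ∀ n, (cells n).length = KK n * wd n ∧
  ∀ k < KK n, ∀ u < wd n, (cells n)[k * wd n + u]? = some (k / LL n, k % LL n, u)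

def ST_OKR : Prop := ∀ n σ ξ vs, okRun n σ ξ (cells n) (st0 n) vs = true ↔
  vs.length = (cells n).length ∧
  (∀ i z, (cells n)[i]? = some z →
    allowed n σ ξ z (stAt (wd n) (fun i => vs.getD i (0, 0)) i) (vs.getD i (0, 0)) = true) ∧
  accept n σ (stAt (wd n) (fun i => vs.getD i (0, 0)) (cells n).length) = true

def ST_ACS : Prop := ∀ n σ (g : ℕ → Lab), σ < wd n →
  (accept n σ (stAt (wd n) g (KK n * wd n)) = true ↔ Cnt n σ (fun k u => g (k * wd n + u)))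

def ST_RUN : Prop := ∀ n σ ξ vs, σ < wd n →
  (okRun n σ ξ (cells n) (st0 n) vs = true ↔
    vs.length = KK n * wd n ∧ Sem n σ (fun2 n vs) ∧
    ∀ k < KK n, lk ξ k = fun2 n vs k (wd n - 1))

def ST_TAB : Prop := ∀ n σ ξ zs st, st.1 ∈ labs n → st.2.length = wd n →
  (∀ e ∈ st.2, e.1 ∈ labs n) → look (tab n σ ξ zs) st = W n σ ξ zs st

/-! ### D. counting -/

def ST_XIU : Prop := ∀ n (ζ : ℕ → Lab), (∀ k, ζ k ∈ labs n) →
  ((Finset.range (KK n)).filter fun k => (ζ k).1 ≠ 0).card ≤ Nat.sqrt n →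
  ∃! ξ, ξ ∈ rows n ∧ ∀ k < KK n, lk ξ k = ζ k

def ST_XIN : Prop := ∀ n, (rows n).Nodup

def ST_SUX : Prop := ∀ n σ, σ < wd n →
  ((rows n).map fun ξ => W n σ ξ (cells n) (st0 n)).sum =
  {vs : List Lab | (∀ v ∈ vs, v ∈ labs n) ∧ vs.length = KK n * wd n ∧
    Sem n σ (fun2 n vs)}.ncard

def ST_REX : Prop := (∀ n σ (f : ℕ → ℕ → Lab), ∀ k < KK n, ∀ u < wd n,
    res n σ (ext n σ f) k u = f k u) ∧
  (∀ n σ P c, σ < wd n → P ∈ Anch n → Val n P c → ext n σ (res n σ c) = c)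

def ST_CCN : Prop := ∀ n σ f (P : Finset Cell), (∀ a, a ∈ P ↔ (ext n σ f a).1 ≠ 0) →
  ∀ u < wd n, cnt n f u = cls n P σ u

def ST_CSM : Prop := ∀ n P σ, ∑ u ∈ Finset.range (wd n), cls n P σ u = P.card

def ST_LIT : Prop := ∀ n P σ, σ < wd n → (firstLight n P σ ↔
  cls n P σ (wd n - 1) ≤ Nat.sqrt n ∧ ∀ u < σ, Nat.sqrt n < cls n P σ u)

def ST_PTL : Prop := ∀ n σ P c, σ < wd n → P ∈ Anch n → Val n P c → Loc n σ (res n σ c)

def ST_VTL : Prop := ∀ n σ f, σ < wd n → (∀ k u, f k u ∈ labs n) → Loc n σ f →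
  ∃ P : Finset Cell, Val n P (ext n σ f) ∧ ∀ a ∈ P, 0 < a.1 ∨ (a.1 = 0 ∧ 0 ≤ a.2)

def ST_PTV : Prop := ∀ n σ P c, σ < wd n → P ∈ Anch n → firstLight n P σ → Val n P c →
  Sem n σ (res n σ c)

def ST_VTP : Prop := ∀ n σ f, σ < wd n → (∀ k u, f k u ∈ labs n) → Sem n σ f →
  ∃ P, P ∈ Anch n ∧ firstLight n P σ ∧ Val n P (ext n σ f)

def ST_FIN : Prop := ∀ n σ, σ < wd n →
  {vs : List Lab | (∀ v ∈ vs, v ∈ labs n) ∧ vs.length = KK n * wd n ∧
    Sem n σ (fun2 n vs)}.ncard = {P | P ∈ Anch n ∧ firstLight n P σ}.ncard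

def ST_SIG : Prop := ∀ n, (Anch n).ncard =
  ∑ σ ∈ Finset.range (wd n), {P | P ∈ Anch n ∧ firstLight n P σ}.ncard

def ST_ALG : Prop := ∀ n, alg n = fixedOminoes n

/-! ### E. polynomial-time functions -/

/-- polynomially bounded numbers -/
def UB {γ : Type} [Enc γ] (f : γ → ℕ) : Prop := PF f ∧ ∃ Q : Polynomial ℕ, ∀ c, f c ≤ Q.eval (sz c)

def ST_PRNG : Prop := ∀ (γ : Type) [Enc γ] (f : γ → ℕ), UB f → PF (fun c => List.range (f c))

def ST_PFLM : Prop := ∀ (γ α β : Type) [Enc γ] [Enc α] [Enc β] (l : γ → List α)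
  (h : γ × α → List β), PF l → PF h → PF (fun c => (l c).flatMap fun x => h (c, x))

def ST_PSUM : Prop := ∀ (γ : Type) [Enc γ] (l : γ → List ℕ), PF l → PF (fun c => (l c).sum)

def ST_PEQ : Prop := ∀ (γ α : Type) [Enc γ] [Enc α] [DecidableEq α],
  Injective (enc : α → T) → ∀ f g : γ → α, PF f → PF g → PF (fun c => decide (f c = g c))

def ST_PINJ : Prop := Injective (enc : Lab → T) ∧ Injective (enc : Sta → T)

def ST_PWD : Prop := ∀ (γ : Type) [Enc γ] (m : γ → ℕ), UB m →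
  UB (fun c => wd (m c)) ∧ UB (fun c => Nat.sqrt (m c)) ∧ UB (fun c => JJ (m c)) ∧
  UB (fun c => LL (m c)) ∧ UB (fun c => KK (m c))

def ST_PLAB : Prop := ∀ (γ : Type) [Enc γ] (m : γ → ℕ), UB m → PF (fun c => labs (m c))

def ST_PCEL : Prop := ∀ (γ : Type) [Enc γ] (m : γ → ℕ), UB m → PF (fun c => cells (m c))

def ST_PCON : Prop := ∀ (γ : Type) [Enc γ] (a b : γ → Lab), PF a → PF b →
  PF (fun c => Hc (a c) (b c)) ∧ PF (fun c => Vc (a c) (b c))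

def ST_PLK : Prop := ∀ (γ : Type) [Enc γ] (ξ : γ → Row) (k : γ → ℕ), PF ξ → PF k →
  PF (fun c => lk (ξ c) (k c))

def ST_PLOOK : Prop := ∀ (γ : Type) [Enc γ] (t : γ → List (Sta × ℕ)) (s : γ → Sta), PF t → PF s →
  PF (fun c => look (t c) (s c))

def ST_PALW : Prop := ∀ (γ : Type) [Enc γ] (m σ : γ → ℕ) (ξ : γ → Row) (z : γ → Cel)
  (st : γ → Sta) (v : γ → Lab), UB m → PF σ → PF ξ → PF z → PF st → PF v →
  PF (fun c => allowed (m c) (σ c) (ξ c) (z c) (st c) (v c))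

def ST_PNXT : Prop := ∀ (γ : Type) [Enc γ] (st : γ → Sta) (v : γ → Lab), PF st → PF v →
  PF (fun c => nxt (st c) (v c))

def ST_PACC : Prop := ∀ (γ : Type) [Enc γ] (m σ : γ → ℕ) (st : γ → Sta), UB m → PF σ → PF st →
  PF (fun c => accept (m c) (σ c) (st c))

def ST_PALL : Prop := ∀ (γ α : Type) [Enc γ] [Enc α] (l : γ → List α) (k : γ → ℕ), PF l → UB k →
  (∃ Q : Polynomial ℕ, ∀ c, ((l c).length + 1) ^ (k c) ≤ Q.eval (sz c)) →
  PF (fun c => allL (l c) (k c))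

/-- valid inputs: a padding and `n` in unary -/
def Inp : Type := {c : List Bool × List Bool // bd c.2.length ≤ c.1.length}

instance : Enc Inp := ⟨fun a => enc a.1⟩

/-- the number `n` of an input -/
def nn (c : Inp) : ℕ := c.1.2.length

def ST_PNN : Prop := UB nn ∧ ∀ c : Inp, bd (nn c) ≤ sz c

def ST_NUM : Prop := ∀ n, ((ents n).length + 1) ^ (wd n) ≤ bd n ∧ (states n).length ≤ bd n ∧
  ∀ i ≤ KK n, ((List.range i).foldl (rowStep n) [[]]).length ≤ bd n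

def ST_PSTT : Prop := PF (fun c : Inp => states (nn c))

def ST_PROW : Prop := PF (fun c : Inp => rows (nn c))

def ST_PTAB : Prop :=
  PF (fun x : (Inp × ℕ) × Row => tab (nn x.1.1) x.1.2 x.2 (cells (nn x.1.1)))

def ST_PALG : Prop := PF (fun c : Inp => alg (nn c))

/-! ### F. Turing machines -/

/-- functions computed by a program in time polynomial in `S a` -/
def TF {α β : Type} [Enc α] [Enc β] (f : α → β) (S : α → ℕ) : Prop :=
  ∃ (m : ℕ) (p : Prog) (P : Polynomial ℕ), p.bd ≤ m ∧ 1 ≤ m ∧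
    ∀ (a : α) (s : Store), s 0 = code a → (∀ i, 0 < i → i < m → s i = []) →
      ∃ c ≤ P.eval (S a), Run p s (update s 0 (code (f a))) c

def ST_TCMP : Prop := ∀ (α β γ : Type) [Enc α] [Enc β] [Enc γ] (f : α → β) (g : β → γ)
  (S : α → ℕ), TF f S → (∀ a, sz a ≤ S a) → PF g → TF (fun a => g (f a)) S

def ST_TFOL : Prop := ∀ (γ α σ : Type) [Enc γ] [Enc α] [Enc σ] (init : γ → σ) (lst : γ → List α)
  (step : σ × α → σ) (S : γ → ℕ), PF init → PF lst → PF step → (∀ c, sz c ≤ S c) →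
  (∀ c l1 l2, lst c = l1 ++ l2 → sz (l1.foldl (fun u x => step (u, x)) (init c)) ≤ S c) →
  TF (fun c => (lst c).foldl (fun u x => step (u, x)) (init c)) S

def ST_TPAD : Prop := ∃ f : List Bool → Inp, (∀ l, nn (f l) = l.length) ∧
  TF f (fun l => 20 * bd l.length + 100)

def ST_TUNA : Prop := ∃ (p : Prog) (m : ℕ), p.bd ≤ m ∧ 1 ≤ m ∧ ∀ (n : ℕ) (s : Store),
  s 0 = List.replicate n true → (∀ i, 0 < i → i < m → s i = []) →
  ∃ c ≤ 20 * n + 20, Run p s (update s 0 (code (List.replicate n true : List Bool))) c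

def ST_TBIT : Prop := ∃ (p : Prog) (m : ℕ), p.bd ≤ m ∧ 1 ≤ m ∧ ∀ (x : ℕ) (s : Store),
  s 0 = code x → (∀ i, 0 < i → i < m → s i = []) →
  ∃ c ≤ 20 * sz x + 20, Run p s (update s 0 x.bits) c

def ST_TLNK : Prop := ∀ (α β : Type) (ea : α → List Bool) (eb : β → List Bool) (f : α → β)
  (p : Prog) (time : ℕ → ℕ),
  (∀ a, ∃ c ≤ time (ea a).length,
    Run p (update (fun _ => []) 0 (ea a)) (update (fun _ => []) 0 (eb (f a))) c) →
  ∃ M : Turing.TM2ComputableInTime ea eb f, ∀ n, M.time n = 4 * (n + time n) + time n + 20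

def ST_TPOL : Prop := ∀ P : Polynomial ℕ, ∃ C : ℕ, ∀ n : ℕ,
  P.eval (20 * bd n + 100) ≤ (n + 2) ^ (C * (Nat.sqrt n + 1))

def ST_FINAL : Prop := ∃ C : ℕ,
  ∃ M : Turing.TM2ComputableInTime (fun n : ℕ => List.replicate n true) Nat.bits fixedOminoes,
    ∀ n, M.time n ≤ (n + 2) ^ (C * (Nat.sqrt n + 1))

end Pool.Agent.Helper92.PO
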