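import Mathlib
import Pool.Agent.Helper92.PO.Stmts

namespace Pool.Agent.Helper92.PO

open Function Pool.Agent.Helper52.Poly

theorem final_le_bd (n : ℕ) : n ≤ bd n := by
  have h : (n + 2) ^ 1 ≤ (n + 2) ^ (10 * (Nat.sqrt n + 1)) :=
    Nat.pow_le_pow_right (by omega) (by omega)
  rw [pow_one] at h
  unfold bd
  omega

theorem final_upd (a b : List Bool) :
    update (update (fun _ => [] : Store) 0 a) 0 b = update (fun _ => []) 0 b := update_idem _ _ _

theorem st_FINAL (h1 : ST_ALG) (h2 : ST_PALG) (h3 : ST_TCMP) (h4 : ST_TPAD) (h5 : ST_TUNA)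
    (h6 : ST_TBIT) (h7 : ST_TLNK) (h8 : ST_TPOL) : ST_FINAL := by
  obtain ⟨f, hf, hTF⟩ := h4
  have hcomp : TF (fun l => alg (nn (f l))) (fun l : List Bool => 20 * bd l.length + 100) :=
    h3 (List Bool) Inp ℕ f (fun c => alg (nn c)) (fun l => 20 * bd l.length + 100) hTF
      (fun l => by
        have e1 := sz_bits_le l
        have e2 := final_le_bd l.length
        omega) h2
  obtain ⟨m, p, P, hb, hm, hrun⟩ := hcomp
  obtain ⟨p1, m1, hb1, hm1, hrun1⟩ := h5
  obtain ⟨p2, m2, hb2, hm2, hrun2⟩ := h6
  have key : ∀ n : ℕ, ∃ c ≤ (20 * n + 20) + P.eval (20 * bd n + 100) +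
      (20 * (4 * n + 1 + P.eval (20 * bd n + 100)) + 20) + 2,
      Run (.seq p1 (.seq p p2)) (update (fun _ => []) 0 (List.replicate n true))
        (update (fun _ => []) 0 (fixedOminoes n).bits) c := by
    intro n
    obtain ⟨c1, hc1, r1⟩ := hrun1 n (update (fun _ => []) 0 (List.replicate n true))
      (update_self _ _ _) (fun i hi _ => by rw [update_of_ne (by omega)])
    rw [final_upd] at r1
    obtain ⟨c2, hc2, r2⟩ := hrun (List.replicate n true)
      (update (fun _ => []) 0 (code (List.replicate n true : List Bool)))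
      (update_self _ _ _) (fun i hi _ => by rw [update_of_ne (by omega)])
    rw [final_upd] at r2
    have hv : alg (nn (f (List.replicate n true))) = fixedOminoes n := by
      rw [hf, List.length_replicate, h1 n]
    have r2' : Run p (update (fun _ => []) 0 (code (List.replicate n true : List Bool)))
        (update (fun _ => []) 0 (code (fixedOminoes n))) c2 := by
      rw [← hv]; exact r2
    obtain ⟨c3, hc3, r3⟩ := hrun2 (fixedOminoes n)
      (update (fun _ => []) 0 (code (fixedOminoes n)))
      (update_self _ _ _) (fun i hi _ => by rw [update_of_ne (by omega)])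
    rw [final_upd] at r3
    have hc2' : c2 ≤ P.eval (20 * bd n + 100) := by
      have : c2 ≤ P.eval (20 * bd (List.replicate n true).length + 100) := hc2
      rwa [List.length_replicate] at this
    have hsz : sz (fixedOminoes n) ≤ 4 * n + 1 + P.eval (20 * bd n + 100) := by
      have e1 := r2'.length_le 0
      rw [update_self, update_self] at e1
      have e2 := sz_bits_le (List.replicate n true)
      rw [List.length_replicate] at e2
      have e3 : sz (fixedOminoes n) = (code (fixedOminoes n)).length := rfl
      have e4 : sz (List.replicate n true) = (code (List.replicate n true)).length := rfl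
      omega
    exact ⟨_, by omega, Run.seq r1 (Run.seq r2' r3)⟩
  obtain ⟨M, hM⟩ := h7 ℕ ℕ (fun n : ℕ => List.replicate n true) Nat.bits fixedOminoes
    (.seq p1 (.seq p p2)) (fun n => (20 * n + 20) + P.eval (20 * bd n + 100) +
      (20 * (4 * n + 1 + P.eval (20 * bd n + 100)) + 20) + 2)
    (fun n => by
      obtain ⟨c, hc, hr⟩ := key n
      refine ⟨c, ?_, hr⟩
      simpa only [List.length_replicate] using hc)
  obtain ⟨C, hC⟩ := h8 (500 * Polynomial.X + 105 * P + 500)
  refine ⟨C, M, fun n => le_trans ?_ (hC n)⟩
  rw [hM n]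
  have e2 := final_le_bd n
  simp only [Polynomial.eval_add, Polynomial.eval_mul, Polynomial.eval_X, Polynomial.eval_ofNat]
  generalize P.eval (20 * bd n + 100) = Z
  omega

end Pool.Agent.Helper92.PO
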