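import Mathlib
import Pool.Agent.Helper92.PO.Stmts

namespace Pool.Agent.Helper92.PO

open Function Pool.Agent.Helper52.Poly

theorem pacc_last (l : List ℕ) : l.getLastD 0 = l.reverse.headD 0 := by
  rw [List.getLastD_eq_getLast?, List.headD_eq_head?_getD, List.head?_reverse]

theorem pacc_all (l : List ℕ) (s : ℕ) : l.all (fun c => decide (s < c)) =
    (l.filter (fun c => !(decide (s < c)))).isEmpty := by
  induction l with
  | nil => rfl
  | cons a l ih =>
    rw [List.all_cons, List.filter_cons, ih]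
    by_cases h : s < a
    · simp [h]
    · simp [h]

theorem st_PACC (h1 : ST_PSUM) (h2 : ST_PWD) : ST_PACC := by
  intro γ _ m σ st hm hσ hst
  have hL : PF (fun c => (st c).2.map Prod.snd) :=
    PF.map (h := fun y : γ × (Lab × ℕ) => y.2.2) (PF.snd' hst) (PF.snd' PF.snd)
  have hsq : PF (fun c => Nat.sqrt (m c)) := (h2 γ m hm).2.1.1
  have e1 : PF (fun c => decide (((st c).2.map Prod.snd).sum = m c)) :=
    PF.eqNat (h1 γ _ hL) hm.1
  have e2 : PF (fun c => decide (((st c).2.map Prod.snd).getLastD 0 ≤ Nat.sqrt (m c))) := by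
    refine (PF.le (PF.headD (PF.reverse hL) (PF.const 0)) hsq).congr (fun c => ?_)
    rw [pacc_last]
  have e3 : PF (fun c => (((st c).2.map Prod.snd).take (σ c)).all
      (fun x => decide (Nat.sqrt (m c) < x))) := by
    have f1 : PF (fun y : γ × ℕ => !(decide (Nat.sqrt (m y.1) < y.2))) :=
      PF.not (PF.lt (PF.comp (g := fun c => Nat.sqrt (m c)) hsq PF.fst) PF.snd)
    refine (PF.isEmpty (PF.filterEnv (PF.take hσ hL) f1)).congr (fun c => ?_)
    rw [pacc_all]
  exact PF.and e1 (PF.and e2 e3)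

end Pool.Agent.Helper92.PO
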