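import Mathlib
import Pool.Agent.Helper92.PO.Stmts

namespace Pool.Agent.Helper92.PO

open Function Pool.Agent.Helper52.Poly

theorem pstt_ub {γ δ : Type} [Enc γ] [Enc δ] {m : δ → ℕ} (hm : UB m) {p : γ → δ} (hp : PF p) :
    UB (fun c => m (p c)) := by
  obtain ⟨h1, Q, h2⟩ := hm
  obtain ⟨R, hR⟩ := hp.size_le
  refine ⟨h1.comp hp, Q.comp R, fun c => ?_⟩
  rw [Polynomial.eval_comp]
  exact (h2 (p c)).trans (pmono Q (hR c))

theorem pstt_succ {γ : Type} [Enc γ] {m : γ → ℕ} (hm : UB m) : UB (fun c => m c + 1) := by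
  obtain ⟨h1, Q, h2⟩ := hm
  refine ⟨PF.add h1 (PF.const 1), Q + 1, fun c => ?_⟩
  have := h2 c
  rw [Polynomial.eval_add, Polynomial.eval_one]
  exact Nat.add_le_add_right this 1

theorem st_PSTT (h1 : ST_PALL) (h2 : ST_PLAB) (h3 : ST_PFLM) (h4 : ST_PRNG) (h5 : ST_PWD)
    (h6 : ST_PNN) (h7 : ST_NUM) : ST_PSTT := by
  have hnn := h6.1
  have hlabs : PF (fun c : Inp => labs (nn c)) := h2 Inp nn hnn
  have hwd : UB (fun c : Inp => wd (nn c)) := (h5 Inp nn hnn).1
  have hKK : UB (fun c : Inp => KK (nn c)) := (h5 Inp nn hnn).2.2.2.2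
  have hents : PF (fun c : Inp => ents (nn c)) := by
    have e1 : UB (fun y : Inp × Lab => KK (nn y.1) + 1) := pstt_succ (pstt_ub hKK PF.fst)
    have e2 : PF (fun y : Inp × Lab => (List.range (KK (nn y.1) + 1)).map fun c => (y.2, c)) :=
      PF.map (h := fun w : (Inp × Lab) × ℕ => (w.1.2, w.2)) (h4 _ _ e1)
        (PF.pair (PF.snd' PF.fst) PF.snd)
    exact h3 Inp Lab (Lab × ℕ) (fun c => labs (nn c))
      (fun y => (List.range (KK (nn y.1) + 1)).map fun c => (y.2, c)) hlabs e2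
  have hall : PF (fun c : Inp => allL (ents (nn c)) (wd (nn c))) :=
    h1 Inp (Lab × ℕ) (fun c => ents (nn c)) (fun c => wd (nn c)) hents hwd
      ⟨Polynomial.X, fun c => by
        rw [Polynomial.eval_X]
        exact ((h7 (nn c)).1).trans (h6.2 c)⟩
  have e3 : PF (fun y : Inp × Lab => (allL (ents (nn y.1)) (wd (nn y.1))).map fun q => (y.2, q)) :=
    PF.map (h := fun w : (Inp × Lab) × Que => (w.1.2, w.2))
      (PF.comp (g := fun c : Inp => allL (ents (nn c)) (wd (nn c))) hall PF.fst)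
      (PF.pair (PF.snd' PF.fst) PF.snd)
  exact h3 Inp Lab Sta (fun c => labs (nn c))
    (fun y => (allL (ents (nn y.1)) (wd (nn y.1))).map fun q => (y.2, q)) hlabs e3

end Pool.Agent.Helper92.PO
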