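import Mathlib
import Pool.Agent.Helper92.PO.Stmts

namespace Pool.Agent.Helper92.PO

open Function Pool.Agent.Helper52.Poly

theorem psum_lt (s : List ℕ) : s.sum < 2 ^ sz s := by
  induction s with
  | nil => simp
  | cons a s ih =>
    rw [List.sum_cons, sz_cons]
    have h1 := lt_two_pow_sz a
    have p1 : 2 ^ sz a ≤ 2 ^ (sz a + sz s) := Nat.pow_le_pow_right (by norm_num) (by omega)
    have p2 : 2 ^ sz s ≤ 2 ^ (sz a + sz s) := Nat.pow_le_pow_right (by norm_num) (by omega)
    have p3 : 2 ^ (1 + sz a + sz s) = 2 * 2 ^ (sz a + sz s) := by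
      rw [add_assoc, pow_add, pow_one]
    omega

theorem psum_foldl (l : List ℕ) : ∀ a : ℕ, l.foldl (fun u x => u + x) a = a + l.sum := by
  induction l with
  | nil => intro a; simp
  | cons x l ih => intro a; rw [List.foldl_cons, ih, List.sum_cons]; omega

theorem st_PSUM : ST_PSUM := by
  intro γ _ l hl
  obtain ⟨Q, hQ⟩ := hl.size_le
  have key := PF.foldl (init := fun _ : γ => 0) (lst := l) (step := fun s : ℕ × ℕ => s.1 + s.2)
    (PF.const _) hl (PF.add PF.fst PF.snd) (4 * Q + 1) (fun c l1 l2 h => by
      show sz (l1.foldl (fun u x => u + x) 0) ≤ _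
      rw [psum_foldl, zero_add]
      have h1 : l1.sum ≤ (l c).sum := by rw [h, List.sum_append]; omega
      have h2 := psum_lt (l c)
      have h3 : l1.sum.size ≤ sz (l c) := by
        rw [Nat.size_le]; omega
      have h4 := sz_nat_le l1.sum
      have h5 := hQ c
      simp only [Polynomial.eval_add, Polynomial.eval_mul, Polynomial.eval_ofNat,
        Polynomial.eval_one]
      omega)
  refine key.congr (fun c => ?_)
  congr 1
  show (l c).sum = (l c).foldl (fun u x => u + x) 0
  rw [psum_foldl, zero_add]

end Pool.Agent.Helper92.PO
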