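import Mathlib
import Pool.Agent.Helper92.PO.Stmts

namespace Pool.Agent.Helper92.PO

open Function Pool.Agent.Helper52.Poly

theorem ptab_iteB {γ α : Type} [Enc γ] [Enc α] {b : γ → Bool} {f g : γ → α} (hb : PF b)
    (hf : PF f) (hg : PF g) : PF (fun c => if b c = true then f c else g c) :=
  (PF.cond hb hf hg).congr (fun c => by cases b c <;> rfl)

theorem ptab_ub {γ δ : Type} [Enc γ] [Enc δ] {m : δ → ℕ} (hm : UB m) {p : γ → δ} (hp : PF p) :
    UB (fun c => m (p c)) := by
  obtain ⟨h1, Q, h2⟩ := hm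
  obtain ⟨R, hR⟩ := hp.size_le
  refine ⟨h1.comp hp, Q.comp R, fun c => ?_⟩
  rw [Polynomial.eval_comp]
  exact (h2 (p c)).trans (pmono Q (hR c))

/-- environment: input, shift, row -/
abbrev PtabE : Type := (Inp × ℕ) × Row

/-- the table for no cells -/
def ptab_base (n σ : ℕ) : List (Sta × ℕ) :=
  (states n).map fun st => (st, if accept n σ st then 1 else 0)

/-- one more cell -/
def ptab_step (n σ : ℕ) (ξ : Row) (t : List (Sta × ℕ)) (z : Cel) : List (Sta × ℕ) :=
  (states n).map fun st =>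
    (st, ((labs n).map fun v => if allowed n σ ξ z st v then look t (nxt st v) else 0).sum)

theorem ptab_foldr (n σ : ℕ) (ξ : Row) (zs : List Cel) :
    tab n σ ξ zs = zs.foldr (fun z t => ptab_step n σ ξ t z) (ptab_base n σ) := by
  induction zs with
  | nil => rfl
  | cons z zs ih => rw [List.foldr_cons, ← ih]; rfl

theorem ptab_foldl (n σ : ℕ) (ξ : Row) (zs : List Cel) :
    zs.reverse.foldl (fun t z => ptab_step n σ ξ t z) (ptab_base n σ) = tab n σ ξ zs := by
  rw [ptab_foldr, List.foldl_reverse]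

theorem ptab_look_le {t : List (Sta × ℕ)} {B : ℕ} (h : ∀ p ∈ t, p.2 ≤ B) (s : Sta) :
    look t s ≤ B := by
  induction t with
  | nil => exact Nat.zero_le _
  | cons p t ih =>
    unfold look
    split_ifs
    · exact h p List.mem_cons_self
    · exact ih (fun q hq => h q (List.mem_cons_of_mem _ hq))

theorem ptab_sum_le {α : Type} (l : List α) (F : α → ℕ) (B : ℕ) (h : ∀ a ∈ l, F a ≤ B) :
    (l.map F).sum ≤ l.length * B := by
  induction l with
  | nil => simp
  | cons a l ih =>
    rw [List.map_cons, List.sum_cons, List.length_cons, Nat.succ_mul]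
    have h1 := h a List.mem_cons_self
    have h2 := ih (fun b hb => h b (List.mem_cons_of_mem _ hb))
    omega

theorem ptab_val (n σ : ℕ) (ξ : Row) (zs : List Cel) :
    ∀ p ∈ tab n σ ξ zs, p.1 ∈ states n ∧ p.2 ≤ (labs n).length ^ zs.length := by
  induction zs with
  | nil =>
    intro p hp
    unfold tab at hp
    obtain ⟨st, h1, h2⟩ := List.mem_map.1 hp
    subst h2
    refine ⟨h1, ?_⟩
    simp only [List.length_nil, pow_zero]
    split_ifs <;> omega
  | cons z zs ih =>
    intro p hp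
    unfold tab at hp
    obtain ⟨st, h1, h2⟩ := List.mem_map.1 hp
    subst h2
    refine ⟨h1, ?_⟩
    rw [List.length_cons, pow_succ, mul_comm]
    refine ptab_sum_le _ _ _ (fun v _ => ?_)
    split_ifs
    · exact ptab_look_le (fun q hq => (ih q hq).2) _
    · exact Nat.zero_le _

theorem ptab_tablen (n σ : ℕ) (ξ : Row) (zs : List Cel) :
    (tab n σ ξ zs).length = (states n).length := by
  cases zs <;> simp [tab]

theorem ptab_szval {L k v : ℕ} (h : v ≤ L ^ k) : sz v ≤ 4 * (L * k + 1) + 1 := by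
  have h1 : v.size ≤ L * k + 1 := by
    rw [Nat.size_le]
    have h2 : L ^ k ≤ 2 ^ (L * k) := by
      rw [pow_mul]
      exact Nat.pow_le_pow_left (Nat.lt_two_pow_self).le k
    have h3 : 2 ^ (L * k) < 2 ^ (L * k + 1) := Nat.pow_lt_pow_right (by norm_num) (by omega)
    omega
  have h2 := sz_nat_le v
  omega

theorem ptab_szlist {α : Type} [Enc α] (l : List α) (B : ℕ) (h : ∀ a ∈ l, sz a ≤ B) :
    sz l ≤ 1 + l.length * (1 + B) := by
  induction l with
  | nil => simp [sz_nil]
  | cons a l ih =>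
    rw [sz_cons, List.length_cons, Nat.succ_mul]
    have h1 := h a List.mem_cons_self
    have h2 := ih (fun b hb => h b (List.mem_cons_of_mem _ hb))
    omega

theorem st_PTAB (h1 : ST_PSTT) (h2 : ST_PLAB) (h3 : ST_PALW) (h4 : ST_PNXT) (h5 : ST_PACC)
    (h6 : ST_PLOOK) (h7 : ST_PSUM) (h8 : ST_PCEL) (h9 : ST_PNN) (h10 : ST_NUM) (h11 : ST_PFLM) :
    ST_PTAB := by
  unfold ST_PTAB
  have hnn := h9.1
  -- the base table
  have hb : PF (fun x : PtabE => ptab_base (nn x.1.1) x.1.2) := by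
    have e1 : PF (fun x : PtabE => states (nn x.1.1)) :=
      PF.comp (g := fun c : Inp => states (nn c)) h1 (PF.fst' PF.fst)
    have e2 : PF (fun y : PtabE × Sta => (y.2,
        if accept (nn y.1.1.1) y.1.1.2 y.2 = true then 1 else 0)) := by
      refine PF.pair PF.snd (ptab_iteB ?_ (PF.const 1) (PF.const 0))
      exact h5 (PtabE × Sta) (fun y => nn y.1.1.1) (fun y => y.1.1.2) (fun y => y.2)
        (ptab_ub hnn (PF.fst' (PF.fst' PF.fst))) (PF.snd' (PF.fst' PF.fst)) PF.snd
    exact PF.map e1 e2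
  -- the step
  have hs : PF (fun s : (PtabE × List (Sta × ℕ)) × Cel =>
      ptab_step (nn s.1.1.1.1) s.1.1.1.2 s.1.1.2 s.1.2 s.2) := by
    have e1 : PF (fun s : (PtabE × List (Sta × ℕ)) × Cel => states (nn s.1.1.1.1)) :=
      PF.comp (g := fun c : Inp => states (nn c)) h1 (PF.fst' (PF.fst' (PF.fst' PF.fst)))
    have e2 : PF (fun y : ((PtabE × List (Sta × ℕ)) × Cel) × Sta => (y.2,
        ((labs (nn y.1.1.1.1.1)).map fun v =>
          if allowed (nn y.1.1.1.1.1) y.1.1.1.1.2 y.1.1.1.2 y.1.2 y.2 v = true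
          then look y.1.1.2 (nxt y.2 v) else 0).sum)) := by
      refine PF.pair PF.snd (h7 _ _ ?_)
      have f1 : PF (fun y : ((PtabE × List (Sta × ℕ)) × Cel) × Sta => labs (nn y.1.1.1.1.1)) :=
        h2 _ (fun y : ((PtabE × List (Sta × ℕ)) × Cel) × Sta => nn y.1.1.1.1.1)
          (ptab_ub hnn (PF.fst' (PF.fst' (PF.fst' (PF.fst' PF.fst)))))
      have f2 : PF (fun w : (((PtabE × List (Sta × ℕ)) × Cel) × Sta) × Lab =>
          if allowed (nn w.1.1.1.1.1.1) w.1.1.1.1.1.2 w.1.1.1.1.2 w.1.1.2 w.1.2 w.2 = true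
          then look w.1.1.1.2 (nxt w.1.2 w.2) else 0) := by
        refine ptab_iteB ?_ ?_ (PF.const 0)
        · exact h3 ((((PtabE × List (Sta × ℕ)) × Cel) × Sta) × Lab) (fun w => nn w.1.1.1.1.1.1) (fun w => w.1.1.1.1.1.2) (fun w => w.1.1.1.1.2)
            (fun w => w.1.1.2) (fun w => w.1.2) (fun w => w.2)
            (ptab_ub hnn (PF.fst' (PF.fst' (PF.fst' (PF.fst' (PF.fst' PF.fst))))))
            (PF.snd' (PF.fst' (PF.fst' (PF.fst' (PF.fst' PF.fst)))))
            (PF.snd' (PF.fst' (PF.fst' (PF.fst' PF.fst))))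
            (PF.snd' (PF.fst' PF.fst)) (PF.snd' PF.fst) PF.snd
        · exact h6 ((((PtabE × List (Sta × ℕ)) × Cel) × Sta) × Lab) (fun w => w.1.1.1.2) (fun w => nxt w.1.2 w.2)
            (PF.snd' (PF.fst' (PF.fst' PF.fst)))
            (h4 ((((PtabE × List (Sta × ℕ)) × Cel) × Sta) × Lab) (fun w => w.1.2) (fun w => w.2)
              (PF.snd' PF.fst) PF.snd)
      exact PF.map f1 f2
    exact PF.map e1 e2
  -- the cells
  have hc : PF (fun x : PtabE => (cells (nn x.1.1)).reverse) :=
    PF.reverse (h8 _ (fun x : PtabE => nn x.1.1) (ptab_ub hnn (PF.fst' PF.fst)))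
  have hl : PF (fun x : PtabE => labs (nn x.1.1)) :=
    h2 _ (fun x : PtabE => nn x.1.1) (ptab_ub hnn (PF.fst' PF.fst))
  have hst : PF (fun x : PtabE => states (nn x.1.1)) :=
    PF.comp (g := fun c : Inp => states (nn c)) h1 (PF.fst' PF.fst)
  obtain ⟨Qc, hQc⟩ := hc.size_le
  obtain ⟨Ql, hQl⟩ := hl.size_le
  obtain ⟨Qs, hQs⟩ := hst.size_le
  have hinit : PF (fun x : PtabE => (x, ptab_base (nn x.1.1) x.1.2)) := PF.pair PF.id hb
  have hstep : PF (fun s : (PtabE × List (Sta × ℕ)) × Cel =>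
      (s.1.1, ptab_step (nn s.1.1.1.1) s.1.1.1.2 s.1.1.2 s.1.2 s.2)) :=
    PF.pair (PF.fst' PF.fst) hs
  have hfold : ∀ (x : PtabE) (l : List Cel) (t : List (Sta × ℕ)),
      l.foldl (fun (u : PtabE × List (Sta × ℕ)) z =>
        (u.1, ptab_step (nn u.1.1.1) u.1.1.2 u.1.2 u.2 z)) (x, t) =
      (x, l.foldl (fun t z => ptab_step (nn x.1.1) x.1.2 x.2 t z) t) := by
    intro x l
    induction l with
    | nil => intro t; rfl
    | cons z l ih => intro t; rw [List.foldl_cons, ih]; rfl
  have key := PF.foldl hinit hc hstep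
    (1 + Polynomial.X + (1 + Qs * (1 + (1 + Qs + (4 * (Ql * Qc + 1) + 1)))))
    (fun x l1 l2 hl12 => by
      have e0 : l1.foldl (fun (u : PtabE × List (Sta × ℕ)) z =>
          (u.1, ptab_step (nn u.1.1.1) u.1.1.2 u.1.2 u.2 z)) (x, ptab_base (nn x.1.1) x.1.2) =
          (x, tab (nn x.1.1) x.1.2 x.2 l1.reverse) := by
        rw [hfold, ← ptab_foldl, List.reverse_reverse]
      refine le_trans (le_of_eq (congrArg sz e0)) ?_
      rw [sz_pair]
      have a1 : l1.length ≤ Qc.eval (sz x) := by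
        have g1 : (cells (nn x.1.1)).reverse.length = l1.length + l2.length := by
          rw [hl12, List.length_append]
        have g2 := length_le_sz (cells (nn x.1.1)).reverse
        have g3 := hQc x
        omega
      have a2 : (labs (nn x.1.1)).length ≤ Ql.eval (sz x) := by
        have g2 := length_le_sz (labs (nn x.1.1))
        have g3 := hQl x
        omega
      have a3 : (states (nn x.1.1)).length ≤ Qs.eval (sz x) := by
        have g2 := length_le_sz (states (nn x.1.1))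
        have g3 := hQs x
        omega
      have a4 : ∀ p ∈ tab (nn x.1.1) x.1.2 x.2 l1.reverse,
          sz p ≤ 1 + Qs.eval (sz x) + (4 * (Ql.eval (sz x) * Qc.eval (sz x) + 1) + 1) := by
        intro p hp
        obtain ⟨b1, b2⟩ := ptab_val _ _ _ _ p hp
        obtain ⟨p1, p2⟩ := p
        rw [sz_pair]
        have b3 : sz p1 ≤ Qs.eval (sz x) := (sz_mem_le b1).trans (hQs x)
        rw [List.length_reverse] at b2
        have b4 : sz p2 ≤ 4 * ((labs (nn x.1.1)).length * l1.length + 1) + 1 := ptab_szval b2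
        have b5 : (labs (nn x.1.1)).length * l1.length ≤ Ql.eval (sz x) * Qc.eval (sz x) :=
          Nat.mul_le_mul a2 a1
        omega
      have a5 := ptab_szlist _ _ a4
      rw [ptab_tablen] at a5
      have a6 : (states (nn x.1.1)).length * (1 + (1 + Qs.eval (sz x) +
          (4 * (Ql.eval (sz x) * Qc.eval (sz x) + 1) + 1))) ≤ Qs.eval (sz x) *
          (1 + (1 + Qs.eval (sz x) + (4 * (Ql.eval (sz x) * Qc.eval (sz x) + 1) + 1))) :=
        Nat.mul_le_mul_right _ a3
      simp only [Polynomial.eval_add, Polynomial.eval_mul, Polynomial.eval_one,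
        Polynomial.eval_X, Polynomial.eval_ofNat]
      omega)
  refine (key.snd').congr (fun x => ?_)
  congr 1
  exact ((congrArg Prod.snd (hfold x (cells (nn x.1.1)).reverse
    (ptab_base (nn x.1.1) x.1.2))).trans (ptab_foldl _ _ _ _)).symm

end Pool.Agent.Helper92.PO
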