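import Mathlib
import Pool.Agent.Helper92.PO.Stmts

namespace Pool.Agent.Helper92.PO

open Function Pool.Agent.Helper52.Poly

/-- read the code of a boolean from stack `0`, push it on stack `1` -/
def tbit_body : Prog :=
  .pop 0 .skip (.push 1 false) (.pop 0 .skip (.pop 0 .skip (.push 1 true) .skip) .skip)

/-- read the code of a list of booleans -/
def tbit_loop : Prog := .loop 0 .skip tbit_body

theorem tbit_run : ∀ (l : List Bool) (s : Store), s 0 = code l →
    ∃ c ≤ 6 * l.length + 3,
      Run tbit_loop s (update (update s 0 []) 1 (l.reverse ++ s 1)) c := by
  intro l
  induction l with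
  | nil =>
    intro s h0
    have h0' : s 0 = false :: [] := h0
    have e1 : Run tbit_loop (update s 0 []) (update s 0 []) 1 :=
      Run.loopNil (update_self _ _ _)
    have e2 := Run.loopF (q' := tbit_body) h0' (Run.skip (update s 0 [])) e1
    refine ⟨_, ?_, Run.cast e2 ?_ rfl⟩
    · simp
    · rw [List.reverse_nil, List.nil_append]
      have e : (update s 0 [] : Store) 1 = s 1 := update_of_ne (by norm_num) _ _
      rw [← e, update_eq_self]
  | cons b l ih =>
    intro s h0
    obtain ⟨c, hc, hr⟩ := ih (update (update s 0 (code l)) 1 (b :: s 1))
      (by rw [update_of_ne (by norm_num), update_self])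
    have hfin : update (update (update (update s 0 (code l)) 1 (b :: s 1)) 0 []) 1
        (l.reverse ++ (update (update s 0 (code l)) 1 (b :: s 1)) 1) =
        update (update s 0 []) 1 ((b :: l).reverse ++ s 1) := by
      rw [update_self]
      funext i
      by_cases i1 : i = 1
      · rw [i1, update_self, update_self]; simp
      · rw [update_of_ne i1, update_of_ne i1]
        by_cases i0 : i = 0
        · rw [i0, update_self, update_self]
        · rw [update_of_ne i0, update_of_ne i1, update_of_ne i0, update_of_ne i0]
    rw [hfin] at hr
    have hne : (1 : ℕ) ≠ 0 := by norm_num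
    cases b with
    | false =>
      have h0' : s 0 = true :: (false :: code l) := h0
      have f1 : (update s 0 (false :: code l) : Store) 0 = false :: code l := update_self _ _ _
      have f2 := Run.push (update (update s 0 (false :: code l)) 0 (code l)) 1 false
      rw [update_idem, update_of_ne hne] at f2
      have f3 : Run tbit_body (update s 0 (false :: code l))
          (update (update s 0 (code l)) 1 (false :: s 1)) (1 + 1) := by
        refine Run.popF f1 ?_
        rw [update_idem]
        exact f2
      exact ⟨_, by rw [List.length_cons]; omega, Run.loopT h0' f3 hr⟩
    | true =>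
      have h0' : s 0 = true :: (true :: false :: false :: code l) := h0
      have f1 : (update s 0 (true :: false :: false :: code l) : Store) 0 =
        true :: (false :: false :: code l) := update_self _ _ _
      have f1' : (update s 0 (false :: false :: code l) : Store) 0 = false :: (false :: code l) :=
        update_self _ _ _
      have f1'' : (update s 0 (false :: code l) : Store) 0 = false :: code l := update_self _ _ _
      have f2 := Run.push (update s 0 (code l)) 1 true
      rw [update_of_ne hne] at f2
      have f3 : Run tbit_body (update s 0 (true :: false :: false :: code l))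
          (update (update s 0 (code l)) 1 (true :: s 1)) (1 + 1 + 1 + 1) := by
        refine Run.popT f1 ?_
        rw [update_idem]
        refine Run.popF f1' ?_
        rw [update_idem]
        refine Run.popF f1'' ?_
        rw [update_idem]
        exact f2
      exact ⟨_, by rw [List.length_cons]; omega, Run.loopT h0' f3 hr⟩

theorem st_TBIT : ST_TBIT := by
  refine ⟨.seq tbit_loop (mv 1 0), 2, ?_, by norm_num, fun x s hs hi => ?_⟩
  · simp [Prog.bd, tbit_loop, tbit_body, bd_mv]
  · have s1 := hi 1 (by norm_num) (by norm_num)
    have hs' : s 0 = code x.bits := hs
    obtain ⟨c, hc, hr⟩ := tbit_run x.bits s hs'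
    rw [s1, List.append_nil] at hr
    have e2 := run_mv (a := 1) (b := 0) (by norm_num) x.bits.reverse
      (update (update s 0 []) 1 x.bits.reverse) (update_self _ _ _)
    have hfin : update (update (update (update s 0 []) 1 x.bits.reverse) 1 []) 0
        (x.bits.reverse.reverse ++ (update (update s 0 []) 1 x.bits.reverse) 0) =
        update s 0 x.bits := by
      rw [List.reverse_reverse, update_of_ne (by norm_num : (0 : ℕ) ≠ 1), update_self,
        List.append_nil, update_idem]
      funext i
      by_cases i0 : i = 0
      · rw [i0, update_self, update_self]
      · rw [update_of_ne i0, update_of_ne i0]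
        by_cases i1 : i = 1
        · rw [i1, update_self, s1]
        · rw [update_of_ne i1, update_of_ne i0]
    rw [hfin] at e2
    refine ⟨_, ?_, Run.seq hr e2⟩
    rw [List.length_reverse]
    have h1 : x.bits.length ≤ sz x := by
      have := length_le_sz x.bits
      have e : sz x = sz x.bits := rfl
      omega
    omega

end Pool.Agent.Helper92.PO
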