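import Mathlib
import Pool.Agent.Helper92.PO.Stmts

namespace Pool.Agent.Helper92.PO

open Function Pool.Agent.Helper52.Poly

theorem st_TFOL : ST_TFOL := by
  intro γ α σ _ _ _ init lst step S hi hl hs hS hQ
  obtain ⟨n0, p0, P0, hc0⟩ := PF.pair hl hi
  have hsz0 := hc0.size_le
  obtain ⟨a1, a2, a3⟩ := hc0
  obtain ⟨n, p, P, hc⟩ := hs
  have b2 := hc.2.1
  have b1 := hc.1
  set M := max n0 n with hM
  have m0 : (0 : ℕ) ≠ M := by omega
  have m1 : (0 : ℕ) ≠ M + 1 := by omega
  have m2 : (0 : ℕ) ≠ M + 2 := by omega
  have m3 : M + 1 ≠ M + 2 := by omega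
  have m4 : M + 1 ≠ M := by omega
  set R : Polynomial ℕ := Polynomial.X + P0 with hR
  refine ⟨M + 4, .seq p0 (.pop 0 .skip .skip (.seq (split 0 (M + 1) (M + 2)) (.seq (mv (M + 1) M)
    (.loop M .skip (foldBody M p))))),
    P0 + 9 * R + R * (9 * R + 4 * Polynomial.X + P.comp (1 + Polynomial.X + R) + 13) + 20,
    ?_, by omega, fun c s hsc hsi => ?_⟩
  · simp only [Prog.bd, foldBody, bd_split, bd_mv]; omega
  obtain ⟨c0, hc0, e0⟩ := a3 c s hsc (fun i i0 i1 => hsi i i0 (by omega))
  have hcode : (update s 0 (code (lst c, init c))) 0 = true :: (code (lst c) ++ code (init c)) := by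
    rw [update_self]; rfl
  -- states
  set S1 : Store := update s 0 (code (lst c) ++ code (init c)) with hS1
  set S2 : Store := update (update s 0 (code (init c))) (M + 1) (code (lst c)).reverse with hS2
  set S3 : Store := update (update s 0 (code (init c))) M (code (lst c)) with hS3
  have x0 := hsi M (by omega) (by omega)
  have x1 := hsi (M + 1) (by omega) (by omega)
  have x2 := hsi (M + 2) (by omega) (by omega)
  have x3 := hsi (M + 3) (by omega) (by omega)
  obtain ⟨k, hk, e1⟩ := run_split' (s := S1) (s' := S2) (rest := code (init c)) m1 m2 m3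
    (enc (lst c)) (by rw [hS1, update_of_ne m2.symm, x2]) (by rw [hS1, update_self]; rfl)
    (by rw [hS1, update_of_ne m1.symm, x1])
    (by rw [hS2, update_of_ne m1, update_self])
    (by rw [hS2, update_self, List.append_nil]; rfl)
    (fun i i1 i2 => by rw [hS2, update_of_ne i2, update_of_ne i1, hS1, update_of_ne i1])
  have e2 : Run (mv (M + 1) M) S2 S3 (2 * (code (lst c)).reverse.length + 1) := by
    refine run_mv' m4 (l := (code (lst c)).reverse) (l' := []) ?_ ?_ ?_ ?_ ?_
    · rw [hS2, update_self]
    · rw [hS2, update_of_ne m4.symm, update_of_ne m0.symm, x0]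
    · rw [hS3, update_of_ne m4, update_of_ne m1.symm, x1]
    · rw [hS3, update_self, List.reverse_reverse, List.append_nil]
    · intro i i1 i2
      rw [hS3, update_of_ne i2, hS2, update_of_ne i1]
  obtain ⟨c3, hc3, e3⟩ := run_foldLoop (le_max_right n0 n) hc (S c) (sz (lst c))
    (lst c) (init c) S3 (by rw [hS3, update_of_ne m0, update_self])
    (by rw [hS3, update_self]) (by rw [hS3, update_of_ne m4, update_of_ne m1.symm, x1])
    (by rw [hS3, update_of_ne (by omega), update_of_ne m2.symm, x2])
    (by rw [hS3, update_of_ne (by omega), update_of_ne (by omega), x3])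
    (fun i i0 i1 => by
      rw [hS3, update_of_ne (by omega), update_of_ne (by omega)]; exact hsi i i0 (by omega))
    (fun l1 l2 h => hQ c l1 l2 h) (fun x hx => sz_mem_le hx)
  have hfin : update (update S3 M []) 0 (code ((lst c).foldl (fun u x => step (u, x)) (init c))) =
      update s 0 (code ((lst c).foldl (fun u x => step (u, x)) (init c))) := by
    funext i
    by_cases i0 : i = 0
    · rw [i0, update_self, update_self]
    · rw [update_of_ne i0, update_of_ne i0]
      by_cases iM : i = M
      · rw [iM, update_self, x0]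
      · rw [update_of_ne iM, hS3, update_of_ne iM, update_of_ne i0]
  rw [hfin] at e3
  have hpop : Run (.pop 0 .skip .skip (.seq (split 0 (M + 1) (M + 2)) (.seq (mv (M + 1) M)
      (.loop M .skip (foldBody M p))))) (update s 0 (code (lst c, init c)))
      (update s 0 (code ((lst c).foldl (fun u x => step (u, x)) (init c))))
      ((k + (2 * (code (lst c)).reverse.length + 1 + c3 + 1) + 1) + 1) := by
    refine Run.popT hcode ?_
    rw [update_idem]
    exact Run.seq e1 (Run.seq e2 e3)
  refine ⟨_, ?_, Run.seq e0 hpop⟩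
  have hSc := hS c
  have h0 : P0.eval (sz c) ≤ P0.eval (S c) := pmono P0 hSc
  have h1 : sz (lst c) ≤ R.eval (S c) := by
    have := hsz0 c
    rw [sz_pair] at this
    rw [hR, Polynomial.eval_add, Polynomial.eval_X]
    omega
  have h2 : (lst c).length ≤ R.eval (S c) := by
    have := length_le_sz (lst c); omega
  have h3 : P.eval (1 + S c + sz (lst c)) ≤
      P.eval (1 + S c + R.eval (S c)) := pmono P (by omega)
  have h4 : (lst c).length * (9 * sz (lst c) + 4 * S c +
      P.eval (1 + S c + sz (lst c)) + 13) ≤
      R.eval (S c) * (9 * R.eval (S c) + 4 * S c +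
      P.eval (1 + S c + R.eval (S c)) + 13) := by
    apply Nat.mul_le_mul h2
    omega
  simp only [Polynomial.eval_add, Polynomial.eval_mul, Polynomial.eval_X,
    Polynomial.eval_ofNat, Polynomial.eval_comp, Polynomial.eval_one, List.length_reverse]
  have h5 : (enc (lst c)).code.length = sz (lst c) := rfl
  have h6 : (code (lst c)).length = sz (lst c) := rfl
  rw [h6]
  rw [h5] at hk
  omega

end Pool.Agent.Helper92.PO
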