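import Mathlib
import Pool.Agent.Helper92.PO.Stmts

namespace Pool.Agent.Helper92.PO

open Function Pool.Agent.Helper52.Poly

/-- one step of the construction of the padding -/
def tpad_step (s : (List Bool × List Bool) × ℕ) : List Bool × List Bool :=
  (s.1.1.flatMap (fun _ => true :: true :: s.1.2), s.1.2)

/-- the padded input -/
def tpad_run (l : List Bool) : List Bool × List Bool :=
  (List.range (10 * (Nat.sqrt l.length + 1))).foldl (fun u x => tpad_step (u, x)) ([true], l)

theorem tpad_inv (m : List ℕ) : ∀ (q l : List Bool),
    (m.foldl (fun u x => tpad_step (u, x)) (q, l)).2 = l ∧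
    (m.foldl (fun u x => tpad_step (u, x)) (q, l)).1.length = q.length * (l.length + 2) ^ m.length := by
  induction m with
  | nil => intro q l; simp
  | cons x m ih =>
    intro q l
    have h := ih (q.flatMap (fun _ => true :: true :: l)) l
    have e : (x :: m).foldl (fun u x => tpad_step (u, x)) (q, l) =
        m.foldl (fun u x => tpad_step (u, x)) (q.flatMap (fun _ => true :: true :: l), l) := rfl
    rw [e]
    refine ⟨h.1, ?_⟩
    rw [h.2, List.length_flatMap, List.map_const', List.sum_replicate, List.length_cons,
      List.length_cons, List.length_cons, smul_eq_mul, pow_succ]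
    ring

theorem tpad_len (l : List Bool) : (tpad_run l).1.length = bd l.length := by
  have h := (tpad_inv (List.range (10 * (Nat.sqrt l.length + 1))) [true] l).2
  unfold tpad_run
  rw [h, List.length_range]
  simp [bd]

theorem tpad_snd (l : List Bool) : (tpad_run l).2 = l :=
  (tpad_inv (List.range (10 * (Nat.sqrt l.length + 1))) [true] l).1

theorem st_TPAD (h1 : ST_TFOL) (_h2 : ST_TCMP) (h3 : ST_PRNG) (h4 : ST_PFLM) (h5 : ST_PWD) :
    ST_TPAD := by
  have hlen : UB (fun l : List Bool => l.length) :=
    ⟨PF.length PF.id, Polynomial.X, fun c => by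
      rw [Polynomial.eval_X]
      have := length_le_sz c
      show c.length ≤ sz c
      omega⟩
  have hsq := (h5 (List Bool) (fun l => l.length) hlen).2.1
  have hK : UB (fun l : List Bool => 10 * (Nat.sqrt l.length + 1)) := by
    obtain ⟨e1, Q, e2⟩ := hsq
    refine ⟨PF.mul (PF.const 10) (PF.add e1 (PF.const 1)), 10 * (Q + 1), fun c => ?_⟩
    have := e2 c
    simp only [Polynomial.eval_add, Polynomial.eval_mul, Polynomial.eval_ofNat,
      Polynomial.eval_one]
    simp only at this
    omega
  have hlst := h3 (List Bool) (fun l => 10 * (Nat.sqrt l.length + 1)) hK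
  have hinit : PF (fun l : List Bool => (([true] : List Bool), l)) := PF.pair (PF.const _) PF.id
  have hstep : PF tpad_step := by
    refine PF.pair ?_ (PF.snd' PF.fst)
    exact h4 ((List Bool × List Bool) × ℕ) Bool Bool (fun s => s.1.1)
      (fun y => true :: true :: y.1.1.2) (PF.fst' PF.fst)
      (PF.cons (PF.const true) (PF.cons (PF.const true) (PF.snd' (PF.fst' PF.fst))))
  have key := h1 (List Bool) ℕ (List Bool × List Bool) (fun l => (([true] : List Bool), l))
    (fun l => List.range (10 * (Nat.sqrt l.length + 1))) tpad_step
    (fun l => 20 * bd l.length + 100) hinit hlst hstep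
    (fun l => by
      have e1 := sz_bits_le l
      have e2 : (l.length + 2) ^ 1 ≤ (l.length + 2) ^ (10 * (Nat.sqrt l.length + 1)) :=
        Nat.pow_le_pow_right (by omega) (by omega)
      rw [pow_one] at e2
      show sz l ≤ 20 * (l.length + 2) ^ (10 * (Nat.sqrt l.length + 1)) + 100
      omega)
    (fun l l1 l2 h => by
      obtain ⟨i1, i2⟩ := tpad_inv l1 [true] l
      generalize l1.foldl (fun u x => tpad_step (u, x)) ([true], l) = r at i1 i2
      obtain ⟨r1, r2⟩ := r
      simp only at i1 i2
      subst i1
      rw [sz_pair]
      have e0 : l1.length ≤ 10 * (Nat.sqrt r2.length + 1) := by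
        have := congrArg List.length h
        rw [List.length_range, List.length_append] at this
        omega
      have e1 := sz_bits_le r2
      have e2 : (r2.length + 2) ^ 1 ≤ (r2.length + 2) ^ (10 * (Nat.sqrt r2.length + 1)) :=
        Nat.pow_le_pow_right (by omega) (by omega)
      rw [pow_one] at e2
      have e3 := sz_bits_le r1
      have e4 : (r2.length + 2) ^ l1.length ≤ (r2.length + 2) ^ (10 * (Nat.sqrt r2.length + 1)) :=
        Nat.pow_le_pow_right (by omega) e0
      rw [i2, List.length_cons, List.length_nil, zero_add, one_mul] at e3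
      show _ ≤ 20 * (r2.length + 2) ^ (10 * (Nat.sqrt r2.length + 1)) + 100
      omega)
  refine ⟨fun l => ⟨tpad_run l, by rw [tpad_snd, tpad_len]⟩, fun l => ?_, ?_⟩
  · show (tpad_run l).2.length = l.length
    rw [tpad_snd]
  · exact key

end Pool.Agent.Helper92.PO
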