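import Mathlib
import Pool.Agent.Helper92.PO.Stmts

namespace Pool.Agent.Helper92.PO

open Function Pool.Agent.Helper52.Poly

theorem st_TUNA : ST_TUNA := by
  refine ⟨.seq (mv 0 1) (.seq (.push 0 false) serLoop), 2, ?_, by norm_num, fun n s hs hi => ?_⟩
  · simp [Prog.bd, serLoop, bd_mv]
  · have s1 := hi 1 (by norm_num) (by norm_num)
    have hlen : (List.replicate n true).length = n := List.length_replicate
    generalize List.replicate n true = l at hs hlen ⊢
    have e1 := run_mv (a := 0) (b := 1) (by norm_num) l s hs
    rw [s1, List.append_nil] at e1
    have e2 := Run.push (update (update s 0 []) 1 l.reverse) 0 false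
    obtain ⟨c, hc, e3⟩ := run_serLoop l.reverse []
      (update (update (update s 0 []) 1 l.reverse) 0
        (false :: (update (update s 0 []) 1 l.reverse) 0))
      (by rw [update_of_ne (by norm_num), update_self]) (by
        rw [update_self, update_of_ne (by norm_num : (0 : ℕ) ≠ 1), update_self]; rfl)
    have hfin : update (update (update (update (update s 0 []) 1 l.reverse) 0
        (false :: (update (update s 0 []) 1 l.reverse) 0)) 1 []) 0
        (code (l.reverse.reverse ++ [])) = update s 0 (code l) := by
      rw [List.reverse_reverse, List.append_nil]
      funext i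
      by_cases i0 : i = 0
      · rw [i0, update_self, update_self]
      · rw [update_of_ne i0, update_of_ne i0]
        by_cases i1 : i = 1
        · rw [i1, update_self, s1]
        · rw [update_of_ne i1, update_of_ne i0, update_of_ne i1, update_of_ne i0]
    rw [hfin] at e3
    refine ⟨_, ?_, Run.seq e1 (Run.seq e2 e3)⟩
    rw [List.length_reverse] at hc
    omega

end Pool.Agent.Helper92.PO
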