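import Mathlib
import Pool.Agent.Helper92.PO.Stmts

namespace Pool.Agent.Helper92.PO

open Function Pool.Agent.Helper52.Poly

theorem st_TCMP : ST_TCMP := by
  intro α β γ _ _ _ f g S hf hS hg
  obtain ⟨n, p, P, h1, h2, h3⟩ := hf
  obtain ⟨m, q, Q, k1, k2, k3⟩ := hg
  refine ⟨max n m, .seq p q, P + Q.comp (Polynomial.X + P) + 1, ?_, ?_, fun a s hs hi => ?_⟩
  · simp only [Prog.bd]; omega
  · omega
  · obtain ⟨c, hc, hr⟩ := h3 a s hs (fun i h0 hn => hi i h0 (by omega))
    obtain ⟨c', hc', hr'⟩ := k3 (f a) (update s 0 (code (f a))) (update_self _ _ _)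
      (fun i h0 hn => by rw [update_of_ne (by omega)]; exact hi i h0 (by omega))
    rw [update_idem] at hr'
    refine ⟨c + c' + 1, ?_, Run.seq hr hr'⟩
    simp only [Polynomial.eval_add, Polynomial.eval_comp, Polynomial.eval_X, Polynomial.eval_one]
    have e1 := hr.length_le 0
    rw [update_self, hs] at e1
    have e2 := hS a
    have e3 : sz (f a) = (code (f a)).length := rfl
    have e4 : sz a = (code a).length := rfl
    have : Q.eval (sz (f a)) ≤ Q.eval (S a + P.eval (S a)) := pmono Q (by omega)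
    omega

end Pool.Agent.Helper92.PO
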